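import Mathlib
import Pool.Agent.Lib.CritL.AutFin

/-!
# Dimensions in which critical lattices have few automorphisms

Lattices, determinant, minimum, ratio `R` and `δ_d` are as in the problem; a lattice of `E^d` is given by a basis `b`.
-/

set_option autoImplicit false

namespace Pool.Agent.Results.MP_fa511b_nt.AutomorphismGroups

/-- the Euclidean space of dimension `d` -/
abbrev E (d : ℕ) := EuclideanSpace ℝ (Fin d)

/-- the lattice of the integer combinations of the vectors `b i` -/
def lat {d : ℕ} (b : Fin d → E d) : Submodule ℤ (E d) := Submodule.span ℤ (Set.range b)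

/-- its determinant -/
noncomputable def detL {d : ℕ} (b : Fin d → E d) : ℝ := |(Matrix.of fun i j => b i j).det|

/-- its minimum: the least length of a nonzero vector -/
noncomputable def minL {d : ℕ} (b : Fin d → E d) : ℝ := sInf {r : ℝ | ∃ v ∈ lat b, v ≠ 0 ∧ r = ‖v‖}

/-- the ratio `R` of the determinant and the `d`-th power of the minimum -/
noncomputable def ratio {d : ℕ} (b : Fin d → E d) : ℝ := detL b / minL b ^ d

/-- `δ_d`: the infimum of the ratios `R` of the lattices in dimension `d` -/
noncomputable def delta (d : ℕ) : ℝ := sInf {r : ℝ | ∃ b : Fin d → E d, LinearIndependent ℝ b ∧ r = ratio b}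

/-- the quotient `R(L) / δ_d` of a lattice `L`; it is `1` if and only if `L` is critical -/
noncomputable def rho {d : ℕ} (b : Fin d → E d) : ℝ := ratio b / delta d

/-- the automorphisms of the lattice of `b`: the linear isometries which map it into (hence onto) itself -/
def auts {d : ℕ} (b : Fin d → E d) : Set (E d → E d) :=
  {f | IsLinearMap ℝ f ∧ (∀ x, ‖f x‖ = ‖x‖) ∧ ∀ x ∈ lat b, f x ∈ lat b}

/-- every lattice `L` of dimension `d` has at most `C^d ρ^(C log d)` automorphisms, `ρ = R(L) / δ_d` -/
def FewAuts (C : ℝ) (d : ℕ) : Prop := ∀ b : Fin d → E d, LinearIndependent ℝ b →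
  (auts b).Finite ∧ ((auts b).ncard : ℝ) ≤ C ^ d * rho b ^ (C * Real.log d)

open scoped Classical in
/-- There are `C > 0` and `K` such that for all `N ≥ 2 K` at least `N / (40 K log N)` of the dimensions `d` with
`N / K < d ≤ N` (`N / K` rounded down) have the following property: every lattice `L` in `E^d` has at most
`C^d ρ^(C log d)` automorphisms. In particular, every critical lattice in `E^d` has at most `C^d` automorphisms. -/
theorem result : ∃ C : ℝ, 0 < C ∧ ∃ K : ℕ, 2 ≤ K ∧ ∀ N : ℕ, 2 * K ≤ N →
    (N : ℝ) / (40 * K * Real.log N) ≤ (((Finset.Ioc (N / K) N).filter (fun d => FewAuts C d)).card : ℝ) :=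
  CritL.part_aut

end Pool.Agent.Results.MP_fa511b_nt.AutomorphismGroups
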