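import Mathlib
import Pool.Agent.Lib.CritL.Final5

/-!
# In many dimensions critical lattices have no small endomorphisms of small rank

Lattices, determinant, minimum, ratio `R` and `δ_d` are as in the problem; a lattice of `E^d` is given by a basis `b`.
-/

set_option autoImplicit false

namespace Pool.Agent.Results.MP_fa511b_nt.EndomorphismDensity

/-- the Euclidean space of dimension `d` -/
abbrev E (d : ℕ) := EuclideanSpace ℝ (Fin d)

/-- the lattice of the integer combinations of the vectors `b i` -/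
def lat {d : ℕ} (b : Fin d → E d) : Submodule ℤ (E d) := Submodule.span ℤ (Set.range b)

/-- its determinant -/
noncomputable def detL {d : ℕ} (b : Fin d → E d) : ℝ := |(Matrix.of fun i j => b i j).det|

/-- its minimum: the least length of a nonzero vector -/
noncomputable def minL {d : ℕ} (b : Fin d → E d) : ℝ := sInf {r : ℝ | ∃ v ∈ lat b, v ≠ 0 ∧ r = ‖v‖}

/-- the ratio `R` of the determinant and the `d`-th power of the minimum -/
noncomputable def ratio {d : ℕ} (b : Fin d → E d) : ℝ := detL b / minL b ^ d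

/-- `δ_d`: the infimum of the ratios `R` of the lattices in dimension `d` -/
noncomputable def delta (d : ℕ) : ℝ := sInf {r : ℝ | ∃ b : Fin d → E d, LinearIndependent ℝ b ∧ r = ratio b}

/-- the quotient `R(L) / δ_d` of a lattice `L`; it is `1` if and only if `L` is critical -/
noncomputable def rho {d : ℕ} (b : Fin d → E d) : ℝ := ratio b / delta d

/-- `w` is a vector of the dual lattice -/
def InDual {d : ℕ} (w : E d) (b : Fin d → E d) : Prop := ∀ x ∈ lat b, ∃ k : ℤ, inner ℝ w x = (k : ℝ)

/-- the volume of the parallelepiped spanned by `w` (square root of the Gram determinant) -/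
noncomputable def vol {n d : ℕ} (w : Fin n → E d) : ℝ := Real.sqrt (Matrix.of fun i j => inner ℝ (w i) (w j)).det

/-- `f` maps the lattice of `b` into itself -/
def Keeps {d : ℕ} (b : Fin d → E d) (f : E d → E d) : Prop := ∀ x ∈ lat b, f x ∈ lat b

/-- the rank of a linear map `f`: the dimension of the span of its values -/
noncomputable def rk {d : ℕ} (f : E d → E d) : ℕ := Module.finrank ℝ (Submodule.span ℝ (Set.range f))

/-- the dimension of the space of the fixed vectors of a linear map `f` (the span of the `x` with `f x = x`) -/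
noncomputable def fix {d : ℕ} (f : E d → E d) : ℕ := Module.finrank ℝ (Submodule.span ℝ {x : E d | f x = x})

/-- for all orthonormal vectors `u_1, …, u_k` orthogonal to the kernel of `f`, the parallelepiped spanned by the vectors
`f (u_i)` has volume greater than `t` -/
def Expands {d : ℕ} (f : E d → E d) (k : ℕ) (t : ℝ) : Prop := ∀ u : Fin k → E d, Orthonormal ℝ u →
  (∀ i, ∀ x, f x = 0 → inner ℝ (u i) x = (0 : ℝ)) → t < vol fun i => f (u i)

/-- every nonzero dual vector `w` has `ρ λ(L) |w| > t` (if `d ≥ 2`) -/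
def DualLarge {d : ℕ} (t : ℝ) (b : Fin d → E d) : Prop :=
  2 ≤ d → ∀ w : E d, w ≠ 0 → InDual w b → t < rho b * (minL b * ‖w‖)

/-- a linear map of rank `k`, `0 < k < d`, `k ≤ T d^θ`, which maps the lattice into itself, maps the unit cubes of the
orthogonal complement of its kernel to parallelepipeds of volume greater than `(T d^η)^k / ρ` -/
def EndoLarge {d : ℕ} (T θ η : ℝ) (b : Fin d → E d) : Prop := ∀ f : E d → E d, IsLinearMap ℝ f → Keeps b f →
  0 < rk f → rk f < d → (rk f : ℝ) ≤ T * (d : ℝ) ^ θ → Expands f (rk f) ((T * (d : ℝ) ^ η) ^ rk f / rho b)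

/-- if a linear isometry `f ≠ 1` which maps the lattice into itself has a fixed space of positive dimension and codimension
`k ≤ T d^θ`, then `ρ > (T d^η)^k` -/
def FixSmall {d : ℕ} (T θ η : ℝ) (b : Fin d → E d) : Prop := ∀ f : E d → E d, IsLinearMap ℝ f →
  (∀ x, ‖f x‖ = ‖x‖) → Keeps b f → (∃ x, f x ≠ x) → 0 < fix f → (d : ℝ) - fix f ≤ T * (d : ℝ) ^ θ →
    (T * (d : ℝ) ^ η) ^ (d - fix f) < rho b

/-- `δ_k δ_(d-k) > (T d^η)^k δ_d` for `0 < k < d`, `k ≤ T d^θ` -/
def SplitLarge (T θ η : ℝ) (d : ℕ) : Prop :=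
  ∀ k, 0 < k → k < d → (k : ℝ) ≤ T * (d : ℝ) ^ θ → (T * (d : ℝ) ^ η) ^ k * delta d < delta k * delta (d - k)

/-- `δ_k δ_(d-k) > (T d^η)^k δ_d` for `0 < k < d`, `k ≤ T d^θ`, and all lattices in `E^d` satisfy the three bounds above
(with `ρ = 1` for the critical ones) -/
def Spa (T θ η : ℝ) (d : ℕ) : Prop := SplitLarge T θ η d ∧
  ∀ b : Fin d → E d, LinearIndependent ℝ b → DualLarge (T * (d : ℝ) ^ η) b ∧ EndoLarge T θ η b ∧ FixSmall T θ η b

open scoped Classical in
/-- For all real `T ≥ 1`, `θ ≥ 0`, `η ≥ 0` with `2 η + θ < 2`: the dimensions `d` with `Spa T θ η d` have lower density at least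
`1 - 1 / (2 - 2 η - θ)` (positive if `2 η + θ < 1`; for `θ = η = 0` it is `1/2`). -/
theorem result (T θ η ε : ℝ) (hT : 1 ≤ T) (hθ : 0 ≤ θ) (hη : 0 ≤ η) (h2 : 2 * η + θ < 2) (hε : 0 < ε) :
    ∃ N₀ : ℕ, ∀ N ≥ N₀,
      (1 - 1 / (2 - 2 * η - θ) - ε) * N ≤ (((Finset.Icc 1 N).filter (fun d => Spa T θ η d)).card : ℝ) :=
  CritL.part_spa T θ η ε hT hθ hη h2 hε

end Pool.Agent.Results.MP_fa511b_nt.EndomorphismDensity
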