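import Mathlib
import Pool.Agent.Lib.CritL.Final2

/-!
# Critical lattices have at most 23 independent reflections

Lattices, determinant, minimum, ratio `R` and critical lattices are as in the problem; a lattice of `E^d` is given by a
basis `b`.
-/

set_option autoImplicit false

namespace Pool.Agent.Results.MP_fa511b_nt.Reflections

/-- the Euclidean space of dimension `d` -/
abbrev E (d : ℕ) := EuclideanSpace ℝ (Fin d)

/-- the lattice of the integer combinations of the vectors `b i` -/
def lat {d : ℕ} (b : Fin d → E d) : Submodule ℤ (E d) := Submodule.span ℤ (Set.range b)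

/-- its determinant -/
noncomputable def detL {d : ℕ} (b : Fin d → E d) : ℝ := |(Matrix.of fun i j => b i j).det|

/-- its minimum: the least length of a nonzero vector -/
noncomputable def minL {d : ℕ} (b : Fin d → E d) : ℝ := sInf {r : ℝ | ∃ v ∈ lat b, v ≠ 0 ∧ r = ‖v‖}

/-- the ratio `R` of the determinant and the `d`-th power of the minimum -/
noncomputable def ratio {d : ℕ} (b : Fin d → E d) : ℝ := detL b / minL b ^ d

/-- `b` is a basis and its lattice is critical: no lattice in dimension `d` has a smaller ratio -/
def IsCritical {d : ℕ} (b : Fin d → E d) : Prop :=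
  LinearIndependent ℝ b ∧ ∀ c : Fin d → E d, LinearIndependent ℝ c → ratio b ≤ ratio c

/-- the reflection of `x` in the hyperplane orthogonal to `v` -/
noncomputable def refl {d : ℕ} (v x : E d) : E d := x - (2 * inner ℝ v x / inner ℝ v v) • v

/-- the reflection in the hyperplane orthogonal to `v` preserves the lattice of `b` -/
def Preserves {d : ℕ} (v : E d) (b : Fin d → E d) : Prop := ∀ x ∈ lat b, refl v x ∈ lat b

/-- `w` is a vector of the dual lattice -/
def InDual {d : ℕ} (w : E d) (b : Fin d → E d) : Prop := ∀ x ∈ lat b, ∃ k : ℤ, inner ℝ w x = (k : ℝ)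

/-- For every `d` and every critical lattice `L` in `E^d`: if `v_1, …, v_n` are linearly independent and each `v_i` is either
the vector of a reflection preserving `L` or a vector of the dual lattice with `λ(L) |v_i| ≤ 2`, then `n ≤ 23`. -/
theorem result (d : ℕ) (hd : 1 ≤ d) (b : Fin d → E d) (hb : IsCritical b) (n : ℕ) (v : Fin n → E d)
    (hv : LinearIndependent ℝ v) (h : ∀ i, Preserves (v i) b ∨ (InDual (v i) b ∧ minL b * ‖v i‖ ≤ 2)) : n ≤ 23 :=
  CritL.vectors_le hd hb hv h

end Pool.Agent.Results.MP_fa511b_nt.Reflections
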