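import Mathlib
import Pool.Agent.Lib.CritL.Final5

/-!
# Dimensions in which critical lattices have few automorphisms and no small endomorphisms

Lattices, determinant, minimum, ratio `R` and `δ_d` are as in the problem; a lattice of `E^d` is given by a basis `b`.
-/

set_option autoImplicit false

namespace Pool.Agent.Results.MP_fa511b_nt.RigidDimensions

/-- the Euclidean space of dimension `d` -/
abbrev E (d : ℕ) := EuclideanSpace ℝ (Fin d)

/-- the lattice of the integer combinations of the vectors `b i` -/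
def lat {d : ℕ} (b : Fin d → E d) : Submodule ℤ (E d) := Submodule.span ℤ (Set.range b)

/-- its determinant -/
noncomputable def detL {d : ℕ} (b : Fin d → E d) : ℝ := |(Matrix.of fun i j => b i j).det|

/-- its minimum: the least length of a nonzero vector -/
noncomputable def minL {d : ℕ} (b : Fin d → E d) : ℝ := sInf {r : ℝ | ∃ v ∈ lat b, v ≠ 0 ∧ r = ‖v‖}

/-- the ratio `R` of the determinant and the `d`-th power of the minimum -/
noncomputable def ratio {d : ℕ} (b : Fin d → E d) : ℝ := detL b / minL b ^ d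

/-- `δ_d`: the infimum of the ratios `R` of the lattices in dimension `d` -/
noncomputable def delta (d : ℕ) : ℝ := sInf {r : ℝ | ∃ b : Fin d → E d, LinearIndependent ℝ b ∧ r = ratio b}

/-- the quotient `R(L) / δ_d` of a lattice `L`; it is `1` if and only if `L` is critical -/
noncomputable def rho {d : ℕ} (b : Fin d → E d) : ℝ := ratio b / delta d

/-- `w` is a vector of the dual lattice -/
def InDual {d : ℕ} (w : E d) (b : Fin d → E d) : Prop := ∀ x ∈ lat b, ∃ k : ℤ, inner ℝ w x = (k : ℝ)

/-- the volume of the parallelepiped spanned by `w` (square root of the Gram determinant) -/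
noncomputable def vol {n d : ℕ} (w : Fin n → E d) : ℝ := Real.sqrt (Matrix.of fun i j => inner ℝ (w i) (w j)).det

/-- `f` maps the lattice of `b` into itself -/
def Keeps {d : ℕ} (b : Fin d → E d) (f : E d → E d) : Prop := ∀ x ∈ lat b, f x ∈ lat b

/-- the rank of a linear map `f`: the dimension of the span of its values -/
noncomputable def rk {d : ℕ} (f : E d → E d) : ℕ := Module.finrank ℝ (Submodule.span ℝ (Set.range f))

/-- the dimension of the space of the fixed vectors of a linear map `f` (the span of the `x` with `f x = x`) -/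
noncomputable def fix {d : ℕ} (f : E d → E d) : ℕ := Module.finrank ℝ (Submodule.span ℝ {x : E d | f x = x})

/-- for all orthonormal vectors `u_1, …, u_k` orthogonal to the kernel of `f`, the parallelepiped spanned by the vectors
`f (u_i)` has volume greater than `t` -/
def Expands {d : ℕ} (f : E d → E d) (k : ℕ) (t : ℝ) : Prop := ∀ u : Fin k → E d, Orthonormal ℝ u →
  (∀ i, ∀ x, f x = 0 → inner ℝ (u i) x = (0 : ℝ)) → t < vol fun i => f (u i)

/-- every nonzero dual vector `w` has `ρ λ(L) |w| > t` (if `d ≥ 2`) -/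
def DualLarge {d : ℕ} (t : ℝ) (b : Fin d → E d) : Prop :=
  2 ≤ d → ∀ w : E d, w ≠ 0 → InDual w b → t < rho b * (minL b * ‖w‖)

/-- a linear map of rank `k`, `0 < k < d`, which maps the lattice into itself, maps the unit cubes of the orthogonal
complement of its kernel to parallelepipeds of volume greater than `(d choose k)^τ / ρ` -/
def EndoLarge {d : ℕ} (τ : ℝ) (b : Fin d → E d) : Prop := ∀ f : E d → E d, IsLinearMap ℝ f → Keeps b f → 0 < rk f →
  rk f < d → Expands f (rk f) ((d.choose (rk f) : ℝ) ^ τ / rho b)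

/-- let `m` be the dimension of the fixed space of `f`: `ρ > (d choose m)^c` if `m > (1/2 + ε) d`;
`(d choose m)^(τ (p - 1)) < ρ^(p - 1) p^(d - m)` if the order of `f` is a power of the prime `p`;
`(d choose m)^τ < ρ n^m` if `f^n = 1`, `n > 0`, `m > 0` -/
def FixBound {d : ℕ} (τ ε c ρ : ℝ) (f : E d → E d) : Prop :=
  ((1 / 2 + ε) * d < fix f → (d.choose (fix f) : ℝ) ^ c < ρ) ∧
  (∀ p a : ℕ, p.Prime → (∀ x, f^[p ^ a] x = x) →
    (d.choose (fix f) : ℝ) ^ (τ * ((p : ℝ) - 1)) < ρ ^ (p - 1) * (p : ℝ) ^ (d - fix f)) ∧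
  ∀ n : ℕ, 0 < n → (∀ x, f^[n] x = x) → 0 < fix f → (d.choose (fix f) : ℝ) ^ τ < ρ * (n : ℝ) ^ fix f

/-- all linear isometries `f ≠ 1` which map the lattice into itself satisfy these bounds -/
def FixSmall {d : ℕ} (τ ε c : ℝ) (b : Fin d → E d) : Prop := ∀ f : E d → E d, IsLinearMap ℝ f → (∀ x, ‖f x‖ = ‖x‖) →
  Keeps b f → (∃ x, f x ≠ x) → FixBound τ ε c (rho b) f

/-- `δ_k δ_(d-k) > (d choose k)^τ δ_d` for `0 < k < d` -/
def SplitLarge (τ : ℝ) (d : ℕ) : Prop :=
  ∀ k, 0 < k → k < d → (d.choose k : ℝ) ^ τ * delta d < delta k * delta (d - k)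

/-- `δ_k δ_(d-k) > (d choose k)^τ δ_d` for `0 < k < d`, and all lattices in `E^d` satisfy the three bounds above (with `ρ = 1`
for the critical ones) -/
def Rig (τ ε c : ℝ) (d : ℕ) : Prop := SplitLarge τ d ∧
  ∀ b : Fin d → E d, LinearIndependent ℝ b → DualLarge ((d : ℝ) ^ τ) b ∧ EndoLarge τ b ∧ FixSmall τ ε c b

open scoped Classical in
/-- For every `τ < 1/2`, `ε > 0` there are `c > 0` and `K` such that for all `N ≥ 2 K` at least `N / (40 K log N)` of the
dimensions `d` with `N / K < d ≤ N` satisfy `Rig τ ε c d` (`N / K` rounded down). -/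
theorem result (τ ε : ℝ) (hτ : τ < 1 / 2) (hε : 0 < ε) : ∃ c : ℝ, 0 < c ∧ ∃ K : ℕ, 2 ≤ K ∧ ∀ N : ℕ, 2 * K ≤ N →
    (N : ℝ) / (40 * K * Real.log N) ≤ (((Finset.Ioc (N / K) N).filter (fun d => Rig τ ε c d)).card : ℝ) :=
  CritL.part_rig τ ε hτ hε

end Pool.Agent.Results.MP_fa511b_nt.RigidDimensions
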